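import Pool.Agent.W398.SG.StmC

/-!
Subtask SG-C-EE: normal subgroups of order `p^2` and exponent `p` in non-cyclic `p`-groups.
-/

namespace Pool.Agent.W462.SG.EE

open Pool.Agent.W37.SG Pool.Agent.W398.SG.C Subgroup

/-- a non-trivial normal subgroup contains a central element of order `p` -/
theorem exists_central {p : ℕ} [hp : Fact p.Prime] {P : Type} [Group P] [Finite P]
    (hP : IsPGroup p P) (O : Subgroup P) [O.Normal] (hO : O ≠ ⊥) :
    ∃ x ∈ O, x ∈ center P ∧ orderOf x = p := by
  have hdvd : p ∣ Nat.card O := by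
    have hO' : IsPGroup p O := hP.to_subgroup O
    have : Nontrivial O := (Subgroup.nontrivial_iff_ne_bot O).mpr hO
    obtain ⟨n, hn0, hn⟩ := hO'.nontrivial_iff_card.mp this
    exact hn.symm ▸ dvd_pow_self _ (ne_of_gt hn0)
  have hfix : (1 : O) ∈ MulAction.fixedPoints (ConjAct P) O := by
    intro g
    exact smul_one g
  obtain ⟨b, hb, hb1⟩ :=
    (hP.of_equiv ConjAct.toConjAct).exists_fixed_point_of_prime_dvd_card_of_fixed_point O hdvd hfix
  have hbc : (b : P) ∈ center P := by
    rw [mem_center_iff]
    intro g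
    have h1 := hb (ConjAct.toConjAct g)
    have h2 : g * (b : P) * g⁻¹ = b := by
      have := congrArg (Subtype.val) h1
      simpa [ConjAct.Subgroup.val_conj_smul, ConjAct.smul_def] using this
    calc g * (b : P) = g * b * g⁻¹ * g := by group
      _ = b * g := by rw [h2]
  have hQ : IsPGroup p (O ⊓ center P : Subgroup P) := hP.to_subgroup _
  have hne : (O ⊓ center P : Subgroup P) ≠ ⊥ := by
    intro h
    have : (b : P) ∈ (O ⊓ center P : Subgroup P) := ⟨b.2, hbc⟩
    rw [h, mem_bot] at this
    exact hb1 (Subtype.ext this.symm)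
  have : Nontrivial (O ⊓ center P : Subgroup P) := (Subgroup.nontrivial_iff_ne_bot _).mpr hne
  obtain ⟨n, hn0, hn⟩ := hQ.nontrivial_iff_card.mp this
  have hd : p ∣ Nat.card (O ⊓ center P : Subgroup P) := hn.symm ▸ dvd_pow_self _ (ne_of_gt hn0)
  obtain ⟨x, hx⟩ := exists_prime_orderOf_dvd_card' p hd
  refine ⟨x, x.2.1, x.2.2, ?_⟩
  rw [← hx, Subgroup.orderOf_coe]

/-- an intermediate normal subgroup -/
theorem interm {p : ℕ} [hp : Fact p.Prime] {P : Type} [Group P] [Finite P]
    (hP : IsPGroup p P) (N O : Subgroup P) [N.Normal] [O.Normal] (hNO : N ≤ O)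
    (hN : Nat.card N = p) (hO : p < Nat.card O) :
    ∃ E : Subgroup P, E.Normal ∧ E ≤ O ∧ Nat.card E = p ^ 2 := by
  have hPN : IsPGroup p (P ⧸ N) := hP.to_quotient N
  have hnm : (O.map (QuotientGroup.mk' N)).Normal :=
    Subgroup.Normal.map inferInstance _ (QuotientGroup.mk'_surjective N)
  have hne : O.map (QuotientGroup.mk' N) ≠ ⊥ := by
    intro h
    rw [Subgroup.map_eq_bot_iff, QuotientGroup.ker_mk'] at h
    have : Nat.card O ≤ Nat.card N := Subgroup.card_le_of_le h
    omega
  obtain ⟨x, hxO, hxc, hx⟩ := exists_central hPN (O.map (QuotientGroup.mk' N)) hne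
  have hnz : (zpowers x).Normal := by
    constructor
    intro y hy g
    obtain ⟨k, rfl⟩ := hy
    have : g * x ^ k * g⁻¹ = x ^ k := by
      have hc : x ^ k ∈ center (P ⧸ N) := (center (P ⧸ N)).zpow_mem hxc k
      rw [mem_center_iff] at hc
      rw [hc g]
      group
    simp only [this]
    exact ⟨k, rfl⟩
  refine ⟨(zpowers x).comap (QuotientGroup.mk' N), Subgroup.Normal.comap hnz _, ?_, ?_⟩
  · intro y hy
    rw [mem_comap] at hy
    have h1 : QuotientGroup.mk' N y ∈ O.map (QuotientGroup.mk' N) :=
      (zpowers_le.mpr hxO) hy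
    obtain ⟨z, hz, hzy⟩ := h1
    have h2 : z⁻¹ * y ∈ N := by
      rw [← QuotientGroup.eq]
      exact hzy
    have : y = z * (z⁻¹ * y) := by group
    rw [this]
    exact O.mul_mem hz (hNO h2)
  · have hcard : Nat.card ((zpowers x).comap (QuotientGroup.mk' N)) =
        Nat.card (zpowers x) * Nat.card N := by
      have h1 := Subgroup.card_mul_index ((zpowers x).comap (QuotientGroup.mk' N))
      have h2 := Subgroup.card_mul_index (zpowers x)
      have h3 := Subgroup.card_eq_card_quotient_mul_card_subgroup N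
      have h4 : ((zpowers x).comap (QuotientGroup.mk' N)).index = (zpowers x).index :=
        Subgroup.index_comap_of_surjective _ (QuotientGroup.mk'_surjective N)
      rw [h4] at h1
      have h5 : 0 < (zpowers x).index := Nat.pos_of_ne_zero Subgroup.index_ne_zero_of_finite
      have : Nat.card ((zpowers x).comap (QuotientGroup.mk' N)) * (zpowers x).index =
          (Nat.card (zpowers x) * Nat.card N) * (zpowers x).index := by
        rw [h1, h3, ← h2]
        ring
      exact Nat.eq_of_mul_eq_mul_right h5 this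
    rw [hcard, Nat.card_zpowers, hx, hN]
    ring

/-- the power formula for a central commutator -/
theorem pow_formula {G : Type} [Group G] (x y c : G) (hc : ∀ g : G, c * g = g * c)
    (h : y * x = c * (x * y)) (n : ℕ) :
    (x * y) ^ n = c ^ (n * (n - 1) / 2) * (x ^ n * y ^ n) := by
  have hcn : ∀ (k : ℕ) (g : G), c ^ k * g = g * c ^ k := by
    intro k g
    exact ((show Commute c g from hc g).pow_left k)
  have hy : ∀ n : ℕ, y ^ n * x = c ^ n * (x * y ^ n) := by
    intro n
    induction n with
    | zero => simp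
    | succ n ih =>
      calc y ^ (n + 1) * x = y ^ n * (y * x) := by rw [pow_succ]; group
        _ = y ^ n * (c * (x * y)) := by rw [h]
        _ = c * (y ^ n * x) * y := by
            rw [← mul_assoc (y ^ n) c, ← hc (y ^ n)]
            group
        _ = c * (c ^ n * (x * y ^ n)) * y := by rw [ih]
        _ = c ^ (n + 1) * (x * y ^ (n + 1)) := by
            rw [pow_succ' c, pow_succ y]
            group
  induction n with
  | zero => simp
  | succ n ih =>
    have hT : (n + 1) * (n + 1 - 1) / 2 = n * (n - 1) / 2 + n := by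
      cases n with
      | zero => rfl
      | succ m =>
        simp only [Nat.add_sub_cancel]
        have : (m + 1 + 1) * (m + 1) = (m + 1) * m + (m + 1) * 2 := by ring
        rw [this, Nat.add_mul_div_right _ _ (by norm_num)]
    rw [hT, pow_succ (x * y) n, ih]
    calc c ^ (n * (n - 1) / 2) * (x ^ n * y ^ n) * (x * y)
        = c ^ (n * (n - 1) / 2) * (x ^ n * (y ^ n * x) * y) := by group
      _ = c ^ (n * (n - 1) / 2) * (x ^ n * (c ^ n * (x * y ^ n)) * y) := by rw [hy n]
      _ = c ^ (n * (n - 1) / 2) * (c ^ n * (x ^ n * (x * y ^ n) * y)) := by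
          rw [← mul_assoc (x ^ n) (c ^ n), ← hcn n (x ^ n)]
          group
      _ = c ^ (n * (n - 1) / 2 + n) * (x ^ (n + 1) * y ^ (n + 1)) := by
          rw [pow_add, pow_succ x, pow_succ y]
          group

/-- the step with non-cyclic quotient: the elements with `x ^ p = 1` -/
theorem step {p : ℕ} [hp : Fact p.Prime] (hp2 : p ≠ 2) {P : Type} [Group P] [Finite P]
    (N M : Subgroup P) [N.Normal] [hM : M.Normal] (hNM : N ≤ M) (hNc : N ≤ center P)
    (hN : Nat.card N = p) (hMc : Nat.card M = p ^ 3)
    (hpow : ∀ x ∈ M, x ^ p ∈ N) (hcomm : ∀ x ∈ M, ∀ y ∈ M, y * x * (x * y)⁻¹ ∈ N) :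
    ∃ O : Subgroup P, O.Normal ∧ N ≤ O ∧ p < Nat.card O ∧ ∀ x ∈ O, x ^ p = 1 := by
  have hNp : ∀ c ∈ N, c ^ p = 1 := by
    intro c hc
    have := pow_card_eq_one' (G := N) (x := ⟨c, hc⟩)
    rw [hN] at this
    simpa using congrArg Subtype.val this
  have hmul : ∀ x ∈ M, ∀ y ∈ M, (x * y) ^ p = x ^ p * y ^ p := by
    intro x hx y hy
    set c := y * x * (x * y)⁻¹ with hcdef
    have hcN : c ∈ N := hcomm x hx y hy
    have hcc : ∀ g : P, c * g = g * c := by
      intro g
      exact ((mem_center_iff.mp (hNc hcN)) g).symm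
    have hyx : y * x = c * (x * y) := by
      rw [hcdef]
      group
    rw [pow_formula x y c hcc hyx p]
    obtain ⟨k, hk⟩ : ∃ k, p = 2 * k + 1 := by
      rcases hp.out.eq_two_or_odd' with h | h
      · exact absurd h hp2
      · exact h
    have hdiv : p * (p - 1) / 2 = p * k := by
      have : p - 1 = 2 * k := by omega
      rw [this, show p * (2 * k) = 2 * (p * k) by ring]
      exact Nat.mul_div_cancel_left _ (by norm_num)
    rw [hdiv, pow_mul, hNp c hcN, one_pow, one_mul]
  let f : M →* N :=
    { toFun := fun x => ⟨(x : P) ^ p, hpow x x.2⟩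
      map_one' := by
        ext
        simp
      map_mul' := by
        intro x y
        ext
        simpa using hmul x x.2 y y.2 }
  have hker : Nat.card M ≤ Nat.card f.ker * Nat.card N := by
    have h1 := Subgroup.card_eq_card_quotient_mul_card_subgroup f.ker
    have h2 : Nat.card (M ⧸ f.ker) = Nat.card f.range :=
      Nat.card_congr (QuotientGroup.quotientKerEquivRange f).toEquiv
    have h3 : Nat.card f.range ≤ Nat.card N := by
      have := Subgroup.card_le_card_group f.range
      exact this
    rw [h1, h2, mul_comm]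
    exact Nat.mul_le_mul_left _ h3
  refine ⟨f.ker.map M.subtype, ?_, ?_, ?_, ?_⟩
  · constructor
    intro y hy g
    obtain ⟨z, hz, rfl⟩ := hy
    have hz1 : (z : P) ^ p = 1 := by
      have : f z = 1 := hz
      simpa [f] using congrArg Subtype.val this
    refine ⟨⟨g * z * g⁻¹, hM.conj_mem z z.2 g⟩, ?_, rfl⟩
    change f _ = 1
    ext
    simp only [f, MonoidHom.coe_mk, OneHom.coe_mk, OneMemClass.coe_one]
    rw [conj_pow, hz1]
    group
  · intro y hy
    refine ⟨⟨y, hNM hy⟩, ?_, rfl⟩
    change f _ = 1
    ext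
    simpa [f] using hNp y hy
  · have h1 : Nat.card (f.ker.map M.subtype) = Nat.card f.ker :=
      Nat.card_congr (f.ker.equivMapOfInjective M.subtype M.subtype_injective).toEquiv.symm
    rw [h1]
    rw [hMc, hN] at hker
    have hp0 := hp.out.pos
    have hp1 := hp.out.one_lt
    by_contra hcon
    push Not at hcon
    have : Nat.card f.ker * p ≤ p * p := Nat.mul_le_mul_right _ hcon
    have h4 : p * p < p ^ 3 := by
      calc p * p = p ^ 2 := by ring
        _ < p ^ 3 := Nat.pow_lt_pow_right hp1 (by norm_num)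
    omega
  · intro y hy
    obtain ⟨z, hz, rfl⟩ := hy
    have : f z = 1 := hz
    simpa [f] using congrArg Subtype.val this

/-- the step with cyclic quotient -/
theorem step_cyc {p : ℕ} [hp : Fact p.Prime] {P : Type} [Group P] [Finite P]
    (hP : IsPGroup p P) (hncyc : ¬ IsCyclic P)
    (N : Subgroup P) [N.Normal] (hNc : N ≤ center P) (hN : Nat.card N = p)
    (hcyc : IsCyclic (P ⧸ N)) :
    ∃ O : Subgroup P, O.Normal ∧ N ≤ O ∧ p < Nat.card O ∧ ∀ x ∈ O, x ^ p = 1 := by
  have hcom : ∀ a b : P, a * b = b * a := by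
    have := (QuotientGroup.mk' N).isMulCommutative_of_isCyclic_of_ker_le_center
      (by rw [QuotientGroup.ker_mk']; exact hNc)
    exact fun a b => this.is_comm.comm a b
  have hNp : ∀ c ∈ N, c ^ p = 1 := by
    intro c hc
    have := pow_card_eq_one' (G := N) (x := ⟨c, hc⟩)
    rw [hN] at this
    simpa using congrArg Subtype.val this
  obtain ⟨gbar, hg⟩ := hcyc.exists_generator
  obtain ⟨g, rfl⟩ := QuotientGroup.mk'_surjective N gbar
  -- every element is a power of `g` times an element of `N`
  have hgen : ∀ x : P, ∃ k : ℤ, ∃ n ∈ N, x = g ^ k * n := by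
    intro x
    obtain ⟨k, hk⟩ := hg (QuotientGroup.mk' N x)
    refine ⟨k, (g ^ k)⁻¹ * x, ?_, by group⟩
    rw [← QuotientGroup.eq]
    simpa using hk
  -- `N` is not contained in `⟨g⟩`
  have hNg : ¬ N ≤ zpowers g := by
    intro hle
    apply hncyc
    refine ⟨g, ?_⟩
    intro x
    obtain ⟨k, n, hn, rfl⟩ := hgen x
    exact (zpowers g).mul_mem ⟨k, rfl⟩ (hle hn)
  -- `N ⊓ ⟨g⟩ = ⊥`
  have hinf : ∀ x ∈ N, x ∈ zpowers g → x = 1 := by
    intro x hxN hxg
    by_contra hx1
    apply hNg
    have hsub : (zpowers x) = N := by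
      have hle : zpowers x ≤ N := zpowers_le.mpr hxN
      apply Subgroup.eq_of_le_of_card_ge hle
      rw [hN, Nat.card_zpowers]
      have h1 : orderOf x ∣ p := orderOf_dvd_of_pow_eq_one (hNp x hxN)
      rcases (Nat.dvd_prime hp.out).mp h1 with h | h
      · exact absurd (orderOf_eq_one_iff.mp h) hx1
      · omega
    rw [← hsub]
    exact zpowers_le.mpr hxg
  have hg1 : g ≠ 1 := by
    rintro rfl
    apply hncyc
    have hNcyc : IsCyclic N := isCyclic_of_prime_card hN
    obtain ⟨n, hn⟩ := hNcyc.exists_generator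
    refine ⟨(n : P), ?_⟩
    intro x
    obtain ⟨k, m, hm, rfl⟩ := hgen x
    obtain ⟨j, hj⟩ := hn ⟨m, hm⟩
    refine ⟨j, ?_⟩
    have := congrArg Subtype.val hj
    simpa using this
  -- an element of order `p` in `⟨g⟩`
  obtain ⟨y, hyg, hyo⟩ : ∃ y ∈ zpowers g, orderOf y = p := by
    have hQ : IsPGroup p (zpowers g) := hP.to_subgroup _
    have : Nontrivial (zpowers g) :=
      (Subgroup.nontrivial_iff_ne_bot _).mpr (by rw [Ne, zpowers_eq_bot]; exact hg1)
    obtain ⟨n, hn0, hn⟩ := hQ.nontrivial_iff_card.mp this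
    have hd : p ∣ Nat.card (zpowers g) := hn.symm ▸ dvd_pow_self _ (ne_of_gt hn0)
    obtain ⟨x, hx⟩ := exists_prime_orderOf_dvd_card' p hd
    exact ⟨x, x.2, by rw [← hx, Subgroup.orderOf_coe]⟩
  let O : Subgroup P :=
    { carrier := {x | x ^ p = 1}
      one_mem' := one_pow p
      mul_mem' := by
        intro a b ha hb
        have : (a * b) ^ p = a ^ p * b ^ p := Commute.mul_pow (hcom a b) p
        simp only [Set.mem_setOf_eq] at ha hb ⊢
        rw [this, ha, hb, one_mul]
      inv_mem' := by
        intro a ha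
        simp only [Set.mem_setOf_eq] at ha ⊢
        rw [inv_pow, ha, inv_one] }
  have hNO : N ≤ O := fun x hx => hNp x hx
  refine ⟨O, ?_, hNO, ?_, fun x hx => hx⟩
  · constructor
    intro x hx g
    have : g * x * g⁻¹ = x := by rw [hcom g x]; group
    rw [this]
    exact hx
  · rw [← hN]
    have hyO : y ∈ O := by
      change y ^ p = 1
      rw [← hyo]
      exact pow_orderOf_eq_one y
    have hyN : y ∉ N := by
      intro h
      have := hinf y h hyg
      rw [this, orderOf_one] at hyo
      exact hp.out.one_lt.ne hyo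
    have hlt : N < O := lt_of_le_of_ne hNO (by rintro rfl; exact hyN hyO)
    by_contra hcon
    push Not at hcon
    exact hlt.ne (Subgroup.eq_of_le_of_card_ge hNO hcon)

theorem main : S_EE := by
  intro p hp hp2
  suffices H : ∀ n : ℕ, ∀ (P : Type) [Group P] [Finite P], Nat.card P = n → IsPGroup p P →
      ¬ IsCyclic P → ∃ E : Subgroup P, E.Normal ∧ Nat.card E = p ^ 2 ∧ ∀ x ∈ E, x ^ p = 1 by
    intro P _ _ hP hc
    exact H _ P rfl hP hc
  intro n
  induction n using Nat.strong_induction_on with
  | _ n ih =>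
  intro P _ _ hn hP hncyc
  have hnt : Nontrivial P := by
    by_contra h
    rw [not_nontrivial_iff_subsingleton] at h
    exact hncyc inferInstance
  obtain ⟨z, -, hzc, hz⟩ := exists_central hP (⊤ : Subgroup P) (by
    intro h
    exact top_ne_bot h)
  have hzN : (zpowers z).Normal := by
    constructor
    intro y hy g
    obtain ⟨k, rfl⟩ := hy
    have : g * z ^ k * g⁻¹ = z ^ k := by
      have hc : z ^ k ∈ center P := (center P).zpow_mem hzc k
      rw [mem_center_iff] at hc
      rw [hc g]
      group
    simp only [this]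
    exact ⟨k, rfl⟩
  have hNc : zpowers z ≤ center P := zpowers_le.mpr hzc
  have hN : Nat.card (zpowers z) = p := by rw [Nat.card_zpowers, hz]
  obtain ⟨O, hOn, hNO, hOc, hOp⟩ : ∃ O : Subgroup P, O.Normal ∧ zpowers z ≤ O ∧
      p < Nat.card O ∧ ∀ x ∈ O, x ^ p = 1 := by
    by_cases hcyc : IsCyclic (P ⧸ zpowers z)
    · exact step_cyc hP hncyc (zpowers z) hNc hN hcyc
    · have hcq : Nat.card P = Nat.card (P ⧸ zpowers z) * p := by
        rw [← hN]
        exact Subgroup.card_eq_card_quotient_mul_card_subgroup _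
      have hlt : Nat.card (P ⧸ zpowers z) < n := by
        rw [← hn, hcq]
        have h0 : 0 < Nat.card (P ⧸ zpowers z) := Nat.card_pos
        exact lt_mul_of_one_lt_right h0 hp.out.one_lt
      obtain ⟨E, hEn, hEc, hEp⟩ := ih _ hlt (P ⧸ zpowers z) rfl (hP.to_quotient _) hcyc
      have hcomE : ∀ a ∈ E, ∀ b ∈ E, a * b = b * a := by
        intro a ha b hb
        have := (IsPGroup.isMulCommutative_of_card_eq_prime_sq hEc).is_comm.comm
          (⟨a, ha⟩ : E) ⟨b, hb⟩
        simpa using congrArg Subtype.val this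
      have hMn : (E.comap (QuotientGroup.mk' (zpowers z))).Normal := Subgroup.Normal.comap hEn _
      have hle : zpowers z ≤ E.comap (QuotientGroup.mk' (zpowers z)) := by
        intro x hx
        rw [mem_comap]
        have : QuotientGroup.mk' (zpowers z) x = 1 := (QuotientGroup.eq_one_iff x).mpr hx
        rw [this]
        exact E.one_mem
      apply step hp2 (zpowers z) (E.comap (QuotientGroup.mk' (zpowers z))) hle hNc hN
      · have h1 := Subgroup.card_mul_index (E.comap (QuotientGroup.mk' (zpowers z)))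
        have h2 := Subgroup.card_mul_index E
        have h4 : (E.comap (QuotientGroup.mk' (zpowers z))).index = E.index :=
          Subgroup.index_comap_of_surjective _ (QuotientGroup.mk'_surjective _)
        rw [h4] at h1
        have h5 : 0 < E.index := Nat.pos_of_ne_zero Subgroup.index_ne_zero_of_finite
        have : Nat.card (E.comap (QuotientGroup.mk' (zpowers z))) * E.index =
            (p ^ 3) * E.index := by
          rw [h1, hcq, ← h2, hEc]
          ring
        exact Nat.eq_of_mul_eq_mul_right h5 this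
      · intro x hx
        rw [mem_comap] at hx
        have := hEp _ hx
        rw [← map_pow] at this
        exact (QuotientGroup.eq_one_iff _).mp this
      · intro x hx y hy
        rw [mem_comap] at hx hy
        have := hcomE _ hx _ hy
        apply (QuotientGroup.eq_one_iff _).mp
        change QuotientGroup.mk' (zpowers z) (y * x * (x * y)⁻¹) = 1
        rw [map_mul, map_inv, map_mul, map_mul, this]
        group
  obtain ⟨E, hEn, hEO, hEc⟩ := interm hP (zpowers z) O hNO hN hOc
  exact ⟨E, hEn, hEc, fun x hx => hOp x (hEO hx)⟩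

end Pool.Agent.W462.SG.EE
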