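import Pool.Agent.W462.SG.G2a

set_option autoImplicit false

/-! Project SG of helper425, part G2: the algebraic relation (adapted from Pool.Agent.W596.SL.L2). -/

namespace Pool.Agent.W462.SG

open MvPolynomial Pool.Agent.H628R4.TZ Pool.Agent.W425.SM Pool.Agent.W525.SM Pool.Agent.W425.SL
  Pool.Agent.W596.SL Pool.Agent.W425.SG

variable {r N : ℕ}

lemma cast_eval (P : MvPolynomial (Fin N) ℚ) (t : Fin N → ℚ) :
    ((eval t P : ℚ) : ℂ) = eval (fun x => ((t x : ℚ) : ℂ)) (map (algebraMap ℚ ℂ) P) := by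
  induction P using MvPolynomial.induction_on with
  | C a => simp
  | add p q hp hq => rw [map_add, map_add, map_add, Rat.cast_add, hp, hq]
  | mul_X p i hp => rw [map_mul, map_mul, map_mul, Rat.cast_mul, hp, map_X, eval_X, eval_X]

lemma clear1 (u : Fin r → ℕ) (M k : ℕ) (c : Fin r → ℤ)
    (hc : ∑ j, c j = k) (hM : ∀ j, c j ≤ M) (hpos : ∀ j, 0 ≤ (u j : ℤ) + c j) :
    (∏ j, ((u j + M).factorial : ℂ)) *
        (Nat.multinomial Finset.univ (fun j => ((u j : ℤ) + c j).toNat) : ℂ) =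
      (((∑ j, u j + k).factorial : ℕ) : ℂ) *
        ∏ j, eval (fun m => (u m : ℂ)) (ff M j (c j) * fq M j (c j)) := by
  have h := clear (fun _ => 1) (fun _ => one_ne_zero) u M k c hc hM hpos
  simpa [cf] using h

theorem num_lhs (v : Fin r → Fin N → ℕ) (A : MvPolynomial (Fin N) (MvPolynomial (Fin r) ℚ))
    (μ0 : Fin r →₀ ℕ) :
    ∃ (S : Finset (Fin r → ℤ)), (∀ c, c ∈ S ↔ ∑ j, c j = 0 ∧ al v A μ0 c ≠ 0) ∧
      ∀ (M : ℕ), (∀ c ∈ S, ∀ j, c j ≤ M) → ∀ (u : Fin r → ℕ),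
        (∏ j, ((u j + M).factorial : ℂ)) *
          ((coeff (ym u + μ0) (coeff (Ex v u) (A * gen v ^ (∑ j, u j))) : ℚ) : ℂ) =
          (((∑ j, u j).factorial : ℕ) : ℂ) * ∑ c ∈ S, (al v A μ0 c : ℂ) *
          (∏ j, eval (fun m => (u m : ℂ)) (ff M j (c j) * fq M j (c j))) := by
  classical
  have hfin : ({c : Fin r → ℤ | ∑ j, c j = 0 ∧ al v A μ0 c ≠ 0} : Set _).Finite :=
    (al_fin v A μ0).subset fun c hc => hc.2
  refine ⟨hfin.toFinset, fun c => Set.Finite.mem_toFinset hfin, fun M hM u => ?_⟩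
  have h5 := reindex u 0 hfin.toFinset
    (fun γ => (al v A μ0 (fun j => (γ j : ℤ) - u j) : ℂ) * (Nat.multinomial Finset.univ γ : ℂ))
    (fun c hc => by
      have := ((Set.Finite.mem_toFinset hfin).1 hc).1
      rw [this]; rfl) (by
    intro γ hγ hne
    rw [Set.Finite.mem_toFinset]
    refine ⟨?_, ?_⟩
    · rw [Finset.sum_sub_distrib, ← Nat.cast_sum, ← Nat.cast_sum, hγ]
      push_cast
      ring
    · exact_mod_cast left_ne_zero_of_mul hne)
  rw [coeff_lhs]
  push_cast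
  rw [add_zero] at h5
  rw [h5, Finset.mul_sum, Finset.mul_sum]
  refine Finset.sum_congr rfl fun c hc => ?_
  split_ifs with hpos
  swap
  · push Not at hpos
    obtain ⟨j, hj⟩ := hpos
    have hz : ∏ j, eval (fun m => (u m : ℂ)) (ff M j (c j) * fq M j (c j)) = 0 :=
      Finset.prod_eq_zero (Finset.mem_univ j) (eval_fc_zero u M j (c j) hj)
    rw [hz]
    simp
  have h9 := ((Set.Finite.mem_toFinset hfin).1 hc).1
  have hcl := clear1 u M 0 c (by rw [h9]; rfl) (hM c hc) hpos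
  rw [add_zero] at hcl
  have hc' : (fun j => (((((u j : ℤ) + c j).toNat) : ℕ) : ℤ) - u j) = c := by
    funext j
    rw [Int.toNat_of_nonneg (hpos j)]
    ring
  rw [hc', mul_left_comm, hcl]
  ring

theorem num_rhs (v : Fin r → Fin N → ℕ) (D : Finset (Fin N → ℤ)) (T : Finset ℕ)
    (Q : ℕ → (Fin N → ℤ) → MvPolynomial (Fin N) (MvPolynomial (Fin r) ℚ))
    (μ0 : Fin r →₀ ℕ) :
    ∃ (S : Finset (Fin r → ℤ)), (∀ c ∈ S, ∑ j, c j = 1) ∧
      ∀ (M : ℕ), (∀ c ∈ S, ∀ j, c j ≤ M) → ∀ (u : Fin r → ℕ),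
        (∏ j, ((u j + M).factorial : ℂ)) *
        ((coeff (ym u + μ0) (∑ m ∈ T, C (((∑ j, u j : ℕ) : ℚ) ^ m) * ∑ δ ∈ D,
      if ∀ i, 0 ≤ (Ex v u i : ℤ) + δ i then
          eval (fun i => C ((((Ex v u i : ℤ) + δ i : ℤ)) : ℚ)) (Q m δ) *
          C (∏ i, ((((Ex v u i : ℤ) + δ i).toNat.descFactorial (δ i).toNat : ℕ) : ℚ)) *
          coeff (Finsupp.equivFunOnFinite.symm fun i => ((Ex v u i : ℤ) + δ i).toNat)
            (gen v ^ (∑ j, u j + 1)) else 0) : ℚ) : ℂ) =
          (((∑ j, u j).factorial : ℕ) : ℂ) *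
          ((((∑ j, u j : ℕ) : ℂ) + 1) * ∑ c ∈ S,
          (∏ j, eval (fun m => (u m : ℂ)) (ff M j (c j) * fq M j (c j))) *
          (∏ i, (((∑ j, u j * v j i : ℕ) + Sh v c i).toNat.descFactorial
            (Sh v c i).toNat : ℂ)) *
          ∑ m ∈ T, ((∑ j, u j : ℕ) : ℂ) ^ m *
            eval (fun x => ((Ex v u x : ℕ) : ℂ) + ((Sh v c x : ℤ) : ℂ))
              (map (algebraMap ℚ ℂ) (Gc v D Q μ0 m c))) := by
  classical
  have hfin : ({c : Fin r → ℤ | ∑ j, c j = 1 ∧ ∃ m ∈ T, Gc v D Q μ0 m c ≠ 0} : Set _).Finite :=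
    (Gc_fin v D T Q μ0).subset fun c hc => hc.2
  refine ⟨hfin.toFinset, fun c hc => ((Set.Finite.mem_toFinset hfin).1 hc).1, fun M hM u => ?_⟩
  set n := ∑ j, u j with hn
  rw [coeff_rhs]
  set F : (Fin r → ℕ) → ℂ := fun γ =>
    (Nat.multinomial Finset.univ γ : ℂ) * ∑ m ∈ T, (n : ℂ) ^ m *
      (eval (fun x => ((Ex v γ x : ℕ) : ℂ))
        (map (algebraMap ℚ ℂ) (Gc v D Q μ0 m fun j => (γ j : ℤ) - u j)) *
      ∏ x, ((Ex v γ x).descFactorial (Sh v (fun j => (γ j : ℤ) - u j) x).toNat : ℂ)) with hF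
  have h2 : ((∑ γ ∈ Finset.piAntidiag Finset.univ (n + 1), (Nat.multinomial Finset.univ γ : ℚ) *
        ∑ m ∈ T, (n : ℚ) ^ m *
          (eval (fun x => ((Ex v γ x : ℕ) : ℚ)) (Gc v D Q μ0 m (fun j => (γ j : ℤ) - u j)) *
          ∏ x, ((Ex v γ x).descFactorial (Sh v (fun j => (γ j : ℤ) - u j) x).toNat : ℚ)) : ℚ) : ℂ)
      = ∑ γ ∈ Finset.piAntidiag Finset.univ (n+1), F γ := by
    rw [hF, Rat.cast_sum]
    refine Finset.sum_congr rfl fun γ _ => ?_
    rw [Rat.cast_mul, Rat.cast_sum, Rat.cast_natCast]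
    congr 1
    refine Finset.sum_congr rfl fun m _ => ?_
    rw [Rat.cast_mul, Rat.cast_mul, cast_eval, Rat.cast_pow, Rat.cast_natCast, Rat.cast_prod]
    simp only [Rat.cast_natCast]
  have hsh := shift_ex v u
  have h5 := reindex u 1 hfin.toFinset F (fun c hc => by
      have := ((Set.Finite.mem_toFinset hfin).1 hc).1
      rw [this]; rfl) (by
    intro γ hγ hne
    rw [Set.Finite.mem_toFinset]
    refine ⟨?_, ?_⟩
    · rw [Finset.sum_sub_distrib, ← Nat.cast_sum, ← Nat.cast_sum, hγ]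
      push_cast
      ring
    · by_contra hno
      push Not at hno
      apply hne
      rw [hF]
      simp only
      rw [Finset.sum_eq_zero, mul_zero]
      intro m hm
      rw [hno m hm]
      simp)
  rw [← hn] at h5
  rw [h2, h5, Finset.mul_sum, Finset.mul_sum, Finset.mul_sum]
  refine Finset.sum_congr rfl fun c hc => ?_
  split_ifs with hpos
  swap
  · push Not at hpos
    obtain ⟨j, hj⟩ := hpos
    have hz : ∏ j, eval (fun m => (u m : ℂ)) (ff M j (c j) * fq M j (c j)) = 0 :=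
      Finset.prod_eq_zero (Finset.mem_univ j) (eval_fc_zero u M j (c j) hj)
    rw [hz]
    simp
  have h9 := ((Set.Finite.mem_toFinset hfin).1 hc).1
  have h10 : ∀ j, ((((u j : ℤ) + c j).toNat : ℕ) : ℤ) = (u j : ℤ) + c j :=
    fun j => Int.toNat_of_nonneg (hpos j)
  have hcl := clear1 u M 1 c (by rw [h9]; rfl) (hM c hc) hpos
  rw [← hn] at hcl
  set γ : Fin r → ℕ := fun j => ((u j : ℤ) + c j).toNat with hγ
  have hc' : (fun j => (γ j : ℤ) - u j) = c := by
    funext j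
    rw [hγ]
    simp only
    rw [h10]
    ring
  have hshc := hsh γ
  rw [hc'] at hshc
  rw [hF]
  simp only
  rw [hc']
  have h14 : ∀ x, ((Ex v γ x : ℕ) : ℂ) = ((Ex v u x : ℕ) : ℂ) + ((Sh v c x : ℤ) : ℂ) := by
    intro x
    exact_mod_cast hshc x
  simp only [h14]
  have h15 : ∏ x, ((Ex v γ x).descFactorial (Sh v c x).toNat : ℂ) =
      ∏ i, (((∑ j, u j * v j i : ℕ) + Sh v c i).toNat.descFactorial
            (Sh v c i).toNat : ℂ) := by
    refine Finset.prod_congr rfl fun i _ => ?_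
    have h16 := hshc i
    rw [Ex_apply v u] at h16
    have h17 : Ex v γ i = (((∑ j, u j * v j i : ℕ) : ℤ) + Sh v c i).toNat := by omega
    rw [h17]
  have h12 : (((n + 1).factorial : ℕ) : ℂ) = ((n : ℂ) + 1) * (n.factorial : ℂ) := by
    rw [Nat.factorial_succ]; push_cast; ring
  rw [h12] at hcl
  rw [h15, ← mul_assoc, hcl]
  simp only [Finset.mul_sum]
  refine Finset.sum_congr rfl fun m _ => ?_
  ring

lemma al_zero (v : Fin r → Fin N → ℕ) (A : MvPolynomial (Fin N) (MvPolynomial (Fin r) ℚ))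
    (μ0 : Fin r →₀ ℕ) : al v A μ0 0 = coeff μ0 (coeff 0 A) := by
  classical
  have h0 : ∀ i, Sh v 0 i = 0 := by intro i; simp [Sh]
  unfold al
  rw [if_pos ⟨fun i => (h0 i).le, fun j => by simp⟩]
  have h1 : gam v 0 = 0 := by
    ext i
    simp [gam, h0]
  have h2 : mu μ0 0 = μ0 := by
    ext j
    simp [mu]
  rw [h1, h2]

theorem taskG2 : TaskG2 := by
  intro r N loc v p θ hθ hb
  classical
  obtain ⟨A, D, T, Q, hA, hloc, hP⟩ := hb
  -- the exponent
  obtain ⟨μ0, hμ0, hmax⟩ := Finset.exists_max_image (coeff 0 A).support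
    (fun μ => ∑ j, (μ j : ℝ) * θ j) (by rwa [support_nonempty])
  set a0 : ℂ := ((al v A μ0 0 : ℚ) : ℂ) with ha0
  have ha0ne : a0 ≠ 0 := by
    rw [ha0, al_zero]
    exact_mod_cast mem_support_iff.1 hμ0
  obtain ⟨S, hS, hq⟩ := num_rhs v D T Q μ0
  obtain ⟨S', hS', hl⟩ := num_lhs v A μ0
  obtain ⟨M, hM⟩ : ∃ M : ℕ, ∀ c ∈ S ∪ S', ∀ j, c j ≤ M := by
    refine ⟨∑ c ∈ S ∪ S', ∑ j, (c j).toNat, fun c hc j => ?_⟩
    have h1 : (c j).toNat ≤ ∑ j, (c j).toNat :=
      Finset.single_le_sum (f := fun j => (c j).toNat) (fun _ _ => Nat.zero_le _)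
        (Finset.mem_univ j)
    have h2 : ∑ j, (c j).toNat ≤ ∑ c ∈ S ∪ S', ∑ j, (c j).toNat :=
      Finset.single_le_sum (f := fun c : Fin r → ℤ => ∑ j, (c j).toNat)
        (fun _ _ => Nat.zero_le _) hc
    omega
  have hqM := hq M (fun c hc => hM c (Finset.mem_union_left _ hc))
  have hlM := hl M (fun c hc => hM c (Finset.mem_union_right _ hc))
  set σ : MvPolynomial (Fin r) ℂ := ∑ j, X j with hσ
  set pC : Polynomial ℂ := p.map (algebraMap ℚ ℂ) with hpC
  set b : Polynomial ℂ := (Polynomial.X + 1) * pC with hbdef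
  have hbQ : ∀ s : ℕ, (((((Polynomial.X + 1) * p).eval (s : ℚ) : ℚ)) : ℂ) = b.eval (s : ℂ) := by
    intro s
    rw [hbdef, hpC, Polynomial.eval_mul, Polynomial.eval_mul, Rat.cast_mul]
    congr 1
    · simp
    · have := Polynomial.eval_map_apply (p := p) (f := algebraMap ℚ ℂ) (s : ℚ)
      rw [eq_ratCast, eq_ratCast] at this
      rw [← this]
      simp
  set gx : (Fin r → ℤ) → (Fin N) → MvPolynomial (Fin r) ℂ := fun c i =>
    el v i - 1 + C ((Sh v c i : ℤ) : ℂ) with hgx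
  set qt : (Fin r → ℤ) → MvPolynomial (Fin r) ℂ := fun c =>
    (∏ j, fq M j (c j)) *
      (∏ i ∈ Bc v c, dd v i (Sh v c i).toNat) *
      ∑ m ∈ T, σ ^ m * aeval (gx c) (map (algebraMap ℚ ℂ) (Gc v D Q μ0 m c)) with hqt
  -- the full relation
  have hfull : Polynomial.aeval σ b * ∑ c ∈ S', (C ((al v A μ0 c : ℚ) : ℂ) *
      ∏ j, (ff M j (c j) * fq M j (c j))) =
      (σ + 1) * ∑ c ∈ S, (∏ i ∈ Bc v c, el v i) *
        ((∏ j, if c j < 0 then X j * dm M j else 1) * qt c) := by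
    refine funext_set (fun _ => Set.range (Nat.cast : ℕ → ℂ))
      (fun _ => Set.infinite_range_of_injective Nat.cast_injective) fun x hx => ?_
    choose u hu using fun j => hx j (Set.mem_univ j)
    obtain rfl : x = fun j => (u j : ℂ) := funext fun j => (hu j).symm
    have hσe : eval (fun j => (u j : ℂ)) σ = ((∑ m, u m : ℕ) : ℂ) := by simp [hσ]
    -- numerical identity
    have hn0 : ((((∑ j, u j).factorial : ℕ) : ℂ)) ≠ 0 := by exact_mod_cast Nat.factorial_ne_zero _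
    have hnum : b.eval (((∑ j, u j : ℕ) : ℂ)) * ∑ c ∈ S', ((al v A μ0 c : ℚ) : ℂ) *
          (∏ j, eval (fun m => (u m : ℂ)) (ff M j (c j) * fq M j (c j))) =
        (((∑ j, u j : ℕ) : ℂ) + 1) * ∑ c ∈ S,
          (∏ j, eval (fun m => (u m : ℂ)) (ff M j (c j) * fq M j (c j))) *
          (∏ i, (((∑ j, u j * v j i : ℕ) + Sh v c i).toNat.descFactorial
            (Sh v c i).toNat : ℂ)) *
          ∑ m ∈ T, ((∑ j, u j : ℕ) : ℂ) ^ m *
            eval (fun x => ((Ex v u x : ℕ) : ℂ) + ((Sh v c x : ℤ) : ℂ))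
              (map (algebraMap ℚ ℂ) (Gc v D Q μ0 m c)) := by
      have h1 := congrArg (fun P => ((coeff (ym u + μ0) P : ℚ) : ℂ)) (hP (∑ j, u j) (Ex v u))
      refine mul_left_cancel₀ hn0 ?_
      rw [← hqM u, ← h1, coeff_C_mul, Rat.cast_mul, hbQ]
      linear_combination (-(b.eval (((∑ j, u j : ℕ) : ℂ)))) * hlM u
    rw [map_mul, eval_paeval, hσe, map_mul, map_add, hσe, map_one, map_sum, map_sum]
    have e1 : ∑ c ∈ S', eval (fun j => (u j : ℂ)) (C ((al v A μ0 c : ℚ) : ℂ) *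
        ∏ j, (ff M j (c j) * fq M j (c j))) = ∑ c ∈ S', ((al v A μ0 c : ℚ) : ℂ) *
          (∏ j, eval (fun m => (u m : ℂ)) (ff M j (c j) * fq M j (c j))) := by
      refine Finset.sum_congr rfl fun c _ => ?_
      rw [map_mul, eval_C, map_prod]
    rw [e1, hnum]
    congr 1
    refine Finset.sum_congr rfl fun c hc => ?_
    have hA : eval (fun j => (u j : ℂ)) (∏ j, if c j < 0 then
          (X j * dm M j : MvPolynomial (Fin r) ℂ) else 1) *
          eval (fun j => (u j : ℂ)) (∏ j, fq M j (c j)) =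
          ∏ j, eval (fun m => (u m : ℂ)) (ff M j (c j) * fq M j (c j)) := by
      simp only [map_prod, ← Finset.prod_mul_distrib, map_mul]
      rfl
    have hB : eval (fun j => (u j : ℂ)) (∏ i ∈ Bc v c, el v i) *
          eval (fun j => (u j : ℂ)) (∏ i ∈ Bc v c, dd v i (Sh v c i).toNat) =
          ∏ i, (((∑ j, u j * v j i : ℕ) + Sh v c i).toNat.descFactorial
              (Sh v c i).toNat : ℂ) := by
      rw [← Finset.prod_subset (Finset.subset_univ (Bc v c))]
      · rw [map_prod, map_prod, ← Finset.prod_mul_distrib]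
        refine Finset.prod_congr rfl fun i hi => ?_
        have h10 : 0 < Sh v c i := by simpa [Bc, Sh] using hi
        rw [eval_dd _ _ _ (by omega), usum]
        have h11 : (((∑ j, u j * v j i : ℕ) : ℤ) + Sh v c i).toNat =
            ∑ j, u j * v j i + (Sh v c i).toNat := by omega
        rw [h11]
      · intro i _ hi
        have h10 : ¬ 0 < Sh v c i := by simpa [Bc, Sh] using hi
        have : (Sh v c i).toNat = 0 := by omega
        rw [this]; simp
    have hC : eval (fun j => (u j : ℂ)) (∑ m ∈ T, σ ^ m *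
          aeval (gx c) (map (algebraMap ℚ ℂ) (Gc v D Q μ0 m c))) =
          ∑ m ∈ T, ((∑ m, u m : ℕ) : ℂ) ^ m *
            eval (fun x => ((Ex v u x : ℕ) : ℂ) + ((Sh v c x : ℤ) : ℂ))
              (map (algebraMap ℚ ℂ) (Gc v D Q μ0 m c)) := by
      rw [map_sum]
      refine Finset.sum_congr rfl fun m _ => ?_
      rw [map_mul, map_pow, hσe, eval_maeval]
      congr 3
      funext x
      rw [hgx]
      simp only [map_add, map_sub, map_one, eval_C]
      rw [eval_el, usum, Ex_apply]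
      push_cast
      ring
    rw [← hA, ← hB, ← hC, hqt]
    simp only [map_mul]
    ring
  -- division by `σ + 1`
  have h3 : (σ + 1) ≠ 0 := by
    intro h
    have h4 := congrArg (eval (0 : Fin r → ℂ)) h
    rw [map_add, map_one, map_zero, hσ, map_sum] at h4
    simp at h4
  have hdiv : Polynomial.aeval σ pC * ∑ c ∈ S', (C ((al v A μ0 c : ℚ) : ℂ) *
      ∏ j, (ff M j (c j) * fq M j (c j))) =
      ∑ c ∈ S, (∏ i ∈ Bc v c, el v i) *
        ((∏ j, if c j < 0 then X j * dm M j else 1) * qt c) := by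
    refine mul_left_cancel₀ h3 ?_
    rw [← hfull, hbdef, map_mul, map_add, Polynomial.aeval_X, map_one]
    ring
  have h0S : (0 : Fin r → ℤ) ∈ S' := by
    rw [hS']
    refine ⟨by simp, ?_⟩
    intro h
    exact ha0ne (by rw [ha0, h, Rat.cast_zero])
  refine ⟨M, S, fun c => C a0⁻¹ * qt c, S'.erase 0, fun c => -(C a0⁻¹ * C ((al v A μ0 c : ℚ) : ℂ) *
    (∏ j, fq M j (c j)) * Polynomial.aeval σ pC), hS, ?_, ?_⟩
  · intro c hc
    rw [Finset.mem_erase, hS'] at hc
    obtain ⟨hc0, hcs, hca⟩ := hc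
    have hcond : (∀ i, Sh v c i ≤ 0) ∧ (∀ j, c j ≤ μ0 j) := by
      by_contra h5
      apply hca
      unfold al
      rw [if_neg h5]
    obtain ⟨h4, h4'⟩ := hcond
    have hval : al v A μ0 c = coeff (mu μ0 c) (coeff (gam v c) A) := by
      unfold al
      rw [if_pos ⟨h4, h4'⟩]
    refine ⟨hcs, h4, ?_⟩
    by_cases h5 : ∀ i, Sh v c i = 0
    · left
      refine ⟨h5, ?_⟩
      have h6 : gam v c = 0 := by
        ext i
        simp [gam, h5]
      rw [hval, h6] at hca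
      have h7 := hmax (mu μ0 c) (mem_support_iff.2 hca)
      have h8 : ∀ j, ((mu μ0 c j : ℕ) : ℝ) = (μ0 j : ℝ) - (c j : ℝ) := by
        intro j
        have h9 : ((mu μ0 c j : ℕ) : ℤ) = (μ0 j : ℤ) - c j := by
          have := h4' j
          simp only [mu, Finsupp.equivFunOnFinite_symm_apply_apply]
          omega
        have h10 : ((((mu μ0 c j : ℕ) : ℤ)) : ℝ) = (((μ0 j : ℤ) - c j : ℤ) : ℝ) := by rw [h9]
        push_cast at h10
        exact h10
      have h9 : 0 ≤ ∑ j, (c j : ℝ) * θ j := by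
        have h10 : ∑ j, ((mu μ0 c j : ℕ) : ℝ) * θ j =
            ∑ j, (μ0 j : ℝ) * θ j - ∑ j, (c j : ℝ) * θ j := by
          rw [← Finset.sum_sub_distrib]
          refine Finset.sum_congr rfl fun j _ => ?_
          rw [h8]; ring
        simp only [h10] at h7
        linarith
      refine lt_of_le_of_ne h9 fun h => hc0 ?_
      have h11 := Fintype.linearIndependent_iff.1 hθ (fun j => (c j : ℚ)) (by
        rw [h]
        refine Finset.sum_congr rfl fun j _ => ?_
        rw [Rat.smul_def]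
        push_cast
        rfl)
      funext j
      exact_mod_cast h11 j
    · right
      push Not at h5
      obtain ⟨i, hi⟩ := h5
      refine ⟨?_, i, lt_of_le_of_ne (h4 i) hi⟩
      by_contra hl'
      apply hca
      rw [hval, hloc hl' (gam v c), coeff_zero]
      intro h6
      have h7 := DFunLike.congr_fun h6 i
      simp only [gam, Finsupp.equivFunOnFinite_symm_apply_apply, Finsupp.coe_zero,
        Pi.zero_apply] at h7
      have h8 := h4 i
      omega
  · have hCC : (C a0⁻¹ : MvPolynomial (Fin r) ℂ) * C a0 = 1 := by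
      rw [← C_mul, inv_mul_cancel₀ ha0ne, C_1]
    have e2 : ∑ c ∈ S, (∏ i ∈ Bc v c, el v i) *
        ((∏ j, if c j < 0 then X j * dm M j else 1) * (C a0⁻¹ * qt c)) =
        C a0⁻¹ * (Polynomial.aeval σ pC * ∑ c ∈ S', (C ((al v A μ0 c : ℚ) : ℂ) *
      ∏ j, (ff M j (c j) * fq M j (c j)))) := by
      rw [hdiv, Finset.mul_sum]
      exact Finset.sum_congr rfl fun c _ => by ring
    rw [e2, ← Finset.add_sum_erase S' _ h0S]
    have e0 : C ((al v A μ0 0 : ℚ) : ℂ) *
        ∏ j, (ff M j ((0 : Fin r → ℤ) j) * fq M j ((0 : Fin r → ℤ) j)) =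
        C a0 * (∏ j, dm M j : MvPolynomial (Fin r) ℂ) := by
      rw [← ha0]
      congr 1
      refine Finset.prod_congr rfl fun j _ => ?_
      rw [Pi.zero_apply, fq_zero]
      unfold ff
      rw [if_neg (lt_irrefl 0), one_mul]
    rw [e0]
    have e3 : (C a0⁻¹ : MvPolynomial (Fin r) ℂ) * (Polynomial.aeval σ pC *
        (C a0 * ∏ j, dm M j + ∑ c ∈ S'.erase 0, C ((al v A μ0 c : ℚ) : ℂ) *
          ∏ j, (ff M j (c j) * fq M j (c j)))) =
        (C a0⁻¹ * C a0) * (Polynomial.aeval σ pC * ∏ j, dm M j) +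
        ∑ c ∈ S'.erase 0, C a0⁻¹ * Polynomial.aeval σ pC * (C ((al v A μ0 c : ℚ) : ℂ) *
          ∏ j, (ff M j (c j) * fq M j (c j))) := by
      rw [← Finset.mul_sum]
      ring
    rw [e3, hCC, one_mul, add_assoc, left_eq_add, ← Finset.sum_add_distrib]
    refine Finset.sum_eq_zero fun c _ => ?_
    have e1 : ∏ j, (ff M j (c j) * fq M j (c j)) =
        (∏ j, if c j < 0 then (X j * dm M j : MvPolynomial (Fin r) ℂ) else 1) *
          ∏ j, fq M j (c j) := by
      rw [Finset.prod_mul_distrib]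
      rfl
    rw [e1]
    ring

end Pool.Agent.W462.SG
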