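import Pool.Agent.W425.SG.Defs
import Pool.Agent.W596.SL.L2

set_option autoImplicit false

/-! Project SG of helper425, part G2: extraction of the coefficients. -/

namespace Pool.Agent.W462.SG

open MvPolynomial Pool.Agent.H628R4.TZ Pool.Agent.W425.SM Pool.Agent.W525.SM Pool.Agent.W425.SL
  Pool.Agent.W596.SL Pool.Agent.W425.SG

variable {r N : ℕ}

/-- the exponent of the monomial in `y` -/
noncomputable def ym (u : Fin r → ℕ) : Fin r →₀ ℕ := Finsupp.equivFunOnFinite.symm u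

lemma ym_apply (u : Fin r → ℕ) (j : Fin r) : ym u j = u j := by simp [ym]

lemma prod_X_ym (u : Fin r → ℕ) :
    (∏ j, X j ^ u j : MvPolynomial (Fin r) ℚ) = monomial (ym u) 1 := by
  rw [monomial_eq, Finsupp.prod_fintype _ _ (by simp)]
  simp [ym]

lemma term_mono' {K : Type*} [CommSemiring K] (v : Fin r → Fin N → ℕ) (a : Fin r → K)
    (u : Fin r → ℕ) :
    ∏ j, (C (a j) * ∏ i, X i ^ v j i : MvPolynomial (Fin N) K) ^ u j =
      monomial (Ex v u) (∏ j, a j ^ u j) := by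
  rw [monomial_eq, Finsupp.prod_fintype _ _ (by simp)]
  simp only [mul_pow, Finset.prod_mul_distrib]
  congr 1
  · rw [map_prod]
    exact Finset.prod_congr rfl fun j _ => (map_pow _ _ _).symm
  · simp only [← Finset.prod_pow, ← pow_mul]
    rw [Finset.prod_comm]
    refine Finset.prod_congr rfl fun i _ => ?_
    rw [Finset.prod_pow_eq_pow_sum, Ex_apply]
    congr 1
    exact Finset.sum_congr rfl fun j _ => mul_comm _ _

lemma gen_pow (v : Fin r → Fin N → ℕ) (n : ℕ) :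
    gen v ^ n = ∑ u ∈ Finset.piAntidiag Finset.univ n,
      monomial (Ex v u) (monomial (ym u) (Nat.multinomial Finset.univ u : ℚ)) := by
  unfold gen
  rw [Finset.sum_pow_eq_sum_piAntidiag]
  refine Finset.sum_congr rfl fun u _ => ?_
  rw [term_mono', prod_X_ym, ← map_natCast (C (σ := Fin N) (R := MvPolynomial (Fin r) ℚ)),
    C_mul_monomial, ← map_natCast (C (σ := Fin r) (R := ℚ)), C_mul_monomial, mul_one]

/-! ### the left side -/

/-- the exponent subtracted by `c` -/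
noncomputable def mu (μ0 : Fin r →₀ ℕ) (c : Fin r → ℤ) : Fin r →₀ ℕ :=
  Finsupp.equivFunOnFinite.symm (fun j => ((μ0 j : ℤ) - c j).toNat)

open Classical in
/-- the coefficient of `A` belonging to `c` -/
noncomputable def al (v : Fin r → Fin N → ℕ) (A : MvPolynomial (Fin N) (MvPolynomial (Fin r) ℚ))
    (μ0 : Fin r →₀ ℕ) (c : Fin r → ℤ) : ℚ :=
  if (∀ i, Sh v c i ≤ 0) ∧ (∀ j, c j ≤ μ0 j) then coeff (mu μ0 c) (coeff (gam v c) A) else 0

lemma ym_le (u γ : Fin r → ℕ) (μ0 : Fin r →₀ ℕ) :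
    ym γ ≤ ym u + μ0 ↔ ∀ j, (γ j : ℤ) - u j ≤ μ0 j := by
  constructor
  · intro h j
    have := h j
    rw [Finsupp.add_apply, ym_apply, ym_apply] at this
    omega
  · intro h j
    have := h j
    rw [Finsupp.add_apply, ym_apply, ym_apply]
    omega

lemma ym_sub (u γ : Fin r → ℕ) (μ0 : Fin r →₀ ℕ) (h : ∀ j, (γ j : ℤ) - u j ≤ μ0 j) :
    ym u + μ0 - ym γ = mu μ0 (fun j => (γ j : ℤ) - u j) := by
  ext j
  have := h j
  rw [Finsupp.tsub_apply, Finsupp.add_apply, ym_apply, ym_apply]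
  simp only [mu, Finsupp.equivFunOnFinite_symm_apply_apply]
  omega

lemma coeff_lhs (v : Fin r → Fin N → ℕ) (A : MvPolynomial (Fin N) (MvPolynomial (Fin r) ℚ))
    (μ0 : Fin r →₀ ℕ) (u : Fin r → ℕ) (n : ℕ) :
    coeff (ym u + μ0) (coeff (Ex v u) (A * gen v ^ n)) =
      ∑ γ ∈ Finset.piAntidiag Finset.univ n,
        al v A μ0 (fun j => (γ j : ℤ) - u j) * (Nat.multinomial Finset.univ γ : ℚ) := by
  classical
  rw [gen_pow, Finset.mul_sum, coeff_sum, coeff_sum]
  refine Finset.sum_congr rfl fun γ _ => ?_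
  rw [coeff_mul_monomial']
  have hsh := shift_ex v u γ
  unfold al
  by_cases hle : Ex v γ ≤ Ex v u
  · have h3 : ∀ i, Sh v (fun j => (γ j : ℤ) - u j) i ≤ 0 := by
      intro i
      have h4 := hle i
      have h5 := hsh i
      omega
    rw [if_pos hle, coeff_mul_monomial']
    by_cases hy : ∀ j, (γ j : ℤ) - u j ≤ μ0 j
    · rw [if_pos ((ym_le u γ μ0).2 hy), if_pos ⟨h3, hy⟩, ym_sub u γ μ0 hy]
      congr 3
      ext i
      have h4 := hle i
      have h5 := hsh i
      simp only [gam, Finsupp.equivFunOnFinite_symm_apply_apply, Finsupp.tsub_apply]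
      omega
    · rw [if_neg (fun h => hy ((ym_le u γ μ0).1 h)), if_neg (fun h => hy h.2), zero_mul]
  · have h3 : ¬ ∀ i, Sh v (fun j => (γ j : ℤ) - u j) i ≤ 0 := by
      intro h4
      apply hle
      intro i
      have h5 := hsh i
      have h6 := h4 i
      omega
    rw [if_neg hle, if_neg (fun h => h3 h.1), zero_mul, coeff_zero]

/-! ### the right side -/

/-- the coefficient of `y ^ μ` -/
noncomputable def Qy (μ : Fin r →₀ ℕ) (Q : MvPolynomial (Fin N) (MvPolynomial (Fin r) ℚ)) :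
    MvPolynomial (Fin N) ℚ := ∑ g ∈ Q.support, monomial g (coeff μ (coeff g Q))

lemma coeff_mul_C' (μ : Fin r →₀ ℕ) (P : MvPolynomial (Fin r) ℚ) (x : ℚ) :
    coeff μ (P * C x) = coeff μ P * x := by
  rw [mul_comm, coeff_C_mul, mul_comm]

lemma coeff_eval_C (Q : MvPolynomial (Fin N) (MvPolynomial (Fin r) ℚ)) (t : Fin N → ℚ)
    (μ : Fin r →₀ ℕ) : coeff μ (eval (fun i => C (t i)) Q) = eval t (Qy μ Q) := by
  unfold Qy
  rw [eval_eq', coeff_sum, map_sum]
  refine Finset.sum_congr rfl fun g _ => ?_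
  rw [eval_monomial, Finsupp.prod_fintype _ _ (by simp)]
  have : ∏ i, (C (t i) : MvPolynomial (Fin r) ℚ) ^ g i = C (∏ i, t i ^ g i) := by
    rw [map_prod]
    exact Finset.prod_congr rfl fun i _ => (map_pow _ _ _).symm
  rw [this, coeff_mul_C']

open Classical in
/-- the polynomial belonging to `c` -/
noncomputable def Gc (v : Fin r → Fin N → ℕ) (D : Finset (Fin N → ℤ))
    (Q : ℕ → (Fin N → ℤ) → MvPolynomial (Fin N) (MvPolynomial (Fin r) ℚ)) (μ0 : Fin r →₀ ℕ)
    (m : ℕ) (c : Fin r → ℤ) : MvPolynomial (Fin N) ℚ :=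
  if Sh v c ∈ D ∧ ∀ j, c j ≤ μ0 j then Qy (mu μ0 c) (Q m (Sh v c)) else 0

lemma coeff_gen (v : Fin r → Fin N → ℕ) (e : Fin N →₀ ℕ) (n : ℕ) :
    open scoped Classical in
    coeff e (gen v ^ n) = ∑ γ ∈ Finset.piAntidiag Finset.univ n,
      if Ex v γ = e then monomial (ym γ) (Nat.multinomial Finset.univ γ : ℚ) else 0 := by
  classical
  rw [gen_pow, coeff_sum]
  refine Finset.sum_congr rfl fun γ _ => ?_
  rw [coeff_monomial]

lemma coeff_rhs (v : Fin r → Fin N → ℕ) (D : Finset (Fin N → ℤ)) (T : Finset ℕ)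
    (Q : ℕ → (Fin N → ℤ) → MvPolynomial (Fin N) (MvPolynomial (Fin r) ℚ))
    (μ0 : Fin r →₀ ℕ) (u : Fin r → ℕ) (n : ℕ) :
    coeff (ym u + μ0) (∑ m ∈ T, C ((n : ℚ) ^ m) * ∑ δ ∈ D,
      if ∀ i, 0 ≤ (Ex v u i : ℤ) + δ i then
          eval (fun i => C ((((Ex v u i : ℤ) + δ i : ℤ)) : ℚ)) (Q m δ) *
          C (∏ i, ((((Ex v u i : ℤ) + δ i).toNat.descFactorial (δ i).toNat : ℕ) : ℚ)) *
          coeff (Finsupp.equivFunOnFinite.symm fun i => ((Ex v u i : ℤ) + δ i).toNat)
            (gen v ^ (n + 1)) else 0) =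
      ∑ γ ∈ Finset.piAntidiag Finset.univ (n + 1), (Nat.multinomial Finset.univ γ : ℚ) *
        ∑ m ∈ T, (n : ℚ) ^ m *
          (eval (fun x => ((Ex v γ x : ℕ) : ℚ)) (Gc v D Q μ0 m (fun j => (γ j : ℤ) - u j)) *
          ∏ x, ((Ex v γ x).descFactorial (Sh v (fun j => (γ j : ℤ) - u j) x).toNat : ℚ)) := by
  classical
  rw [coeff_sum]
  have hm : ∀ m ∈ T, coeff (ym u + μ0) (C ((n : ℚ) ^ m) * ∑ δ ∈ D,
      if ∀ i, 0 ≤ (Ex v u i : ℤ) + δ i then
          eval (fun i => C ((((Ex v u i : ℤ) + δ i : ℤ)) : ℚ)) (Q m δ) *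
          C (∏ i, ((((Ex v u i : ℤ) + δ i).toNat.descFactorial (δ i).toNat : ℕ) : ℚ)) *
          coeff (Finsupp.equivFunOnFinite.symm fun i => ((Ex v u i : ℤ) + δ i).toNat)
            (gen v ^ (n + 1)) else 0) =
      ∑ γ ∈ Finset.piAntidiag Finset.univ (n + 1), (n : ℚ) ^ m *
        ((Nat.multinomial Finset.univ γ : ℚ) *
          (eval (fun x => ((Ex v γ x : ℕ) : ℚ)) (Gc v D Q μ0 m (fun j => (γ j : ℤ) - u j)) *
          ∏ x, ((Ex v γ x).descFactorial (Sh v (fun j => (γ j : ℤ) - u j) x).toNat : ℚ))) := by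
    intro m _
    rw [coeff_C_mul, coeff_sum, ← Finset.mul_sum]
    congr 1
    -- one δ
    have h1 : ∀ δ ∈ D, coeff (ym u + μ0) (if ∀ i, 0 ≤ (Ex v u i : ℤ) + δ i then
          eval (fun i => C ((((Ex v u i : ℤ) + δ i : ℤ)) : ℚ)) (Q m δ) *
          C (∏ i, ((((Ex v u i : ℤ) + δ i).toNat.descFactorial (δ i).toNat : ℕ) : ℚ)) *
          coeff (Finsupp.equivFunOnFinite.symm fun i => ((Ex v u i : ℤ) + δ i).toNat)
            (gen v ^ (n + 1)) else 0) =
        ∑ γ ∈ Finset.piAntidiag Finset.univ (n + 1),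
          if Sh v (fun j => (γ j : ℤ) - u j) = δ then
          ((Nat.multinomial Finset.univ γ : ℚ) *
          (eval (fun x => ((Ex v γ x : ℕ) : ℚ)) (if ∀ j, (γ j : ℤ) - u j ≤ μ0 j then
            Qy (mu μ0 (fun j => (γ j : ℤ) - u j)) (Q m δ) else 0) *
          ∏ x, ((Ex v γ x).descFactorial (δ x).toNat : ℚ))) else 0 := by
      intro δ _
      have h2 : ∀ γ : Fin r → ℕ, Sh v (fun j => (γ j : ℤ) - u j) = δ ↔
          (∀ i, 0 ≤ (Ex v u i : ℤ) + δ i) ∧ Ex v γ =
            (Finsupp.equivFunOnFinite.symm fun i => ((Ex v u i : ℤ) + δ i).toNat) := by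
        intro γ
        have hsh := shift_ex v u γ
        constructor
        · rintro rfl
          refine ⟨fun i => by rw [← hsh i]; omega, ?_⟩
          ext i
          simp only [Finsupp.equivFunOnFinite_symm_apply_apply]
          rw [← hsh i]
          omega
        · rintro ⟨h3, h4⟩
          funext i
          have h5 := DFunLike.congr_fun h4 i
          simp only [Finsupp.equivFunOnFinite_symm_apply_apply] at h5
          have h6 := hsh i
          have h7 := h3 i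
          omega
      split_ifs with hpos
      swap
      · rw [coeff_zero, Finset.sum_eq_zero]
        intro γ _
        rw [if_neg]
        intro h3
        exact hpos ((h2 γ).1 h3).1
      rw [coeff_gen, Finset.mul_sum, coeff_sum]
      refine Finset.sum_congr rfl fun γ _ => ?_
      by_cases hγ : Sh v (fun j => (γ j : ℤ) - u j) = δ
      swap
      · rw [if_neg hγ, if_neg (fun h3 => hγ ((h2 γ).2 ⟨hpos, h3⟩)), mul_zero, coeff_zero]
      rw [if_pos hγ, if_pos ((h2 γ).1 hγ).2]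
      have hsh := shift_ex v u γ
      rw [hγ] at hsh
      have h8 : (fun i => (C ((((Ex v u i : ℤ) + δ i : ℤ)) : ℚ) : MvPolynomial (Fin r) ℚ)) =
          fun i => C (((Ex v γ i : ℕ) : ℚ)) := by
        funext i
        rw [← hsh i]
        push_cast
        rfl
      have h9 : (∏ i, ((((Ex v u i : ℤ) + δ i).toNat.descFactorial (δ i).toNat : ℕ) : ℚ)) =
          ∏ x, ((Ex v γ x).descFactorial (δ x).toNat : ℚ) := by
        refine Finset.prod_congr rfl fun i _ => ?_
        rw [← hsh i, Int.toNat_natCast]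
      rw [h8, h9, coeff_mul_monomial']
      by_cases hy : ∀ j, (γ j : ℤ) - u j ≤ μ0 j
      · rw [if_pos ((ym_le u γ μ0).2 hy), if_pos hy, ym_sub u γ μ0 hy, coeff_mul_C', coeff_eval_C]
        ring
      · rw [if_neg (fun h => hy ((ym_le u γ μ0).1 h)), if_neg hy]
        simp
    rw [Finset.sum_congr rfl h1, Finset.sum_comm]
    refine Finset.sum_congr rfl fun γ _ => ?_
    unfold Gc
    by_cases hD : Sh v (fun j => (γ j : ℤ) - u j) ∈ D
    · rw [Finset.sum_ite_eq D (Sh v (fun j => (γ j : ℤ) - u j)), if_pos hD]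
      by_cases hy : ∀ j, (γ j : ℤ) - u j ≤ μ0 j
      · rw [if_pos hy, if_pos ⟨hD, hy⟩]
      · rw [if_neg hy, if_neg (fun h => hy h.2)]
    · rw [Finset.sum_ite_eq D (Sh v (fun j => (γ j : ℤ) - u j)), if_neg hD,
        if_neg (fun h => hD h.1)]
      simp
  rw [Finset.sum_congr rfl hm, Finset.sum_comm]
  refine Finset.sum_congr rfl fun γ _ => ?_
  rw [Finset.mul_sum]
  refine Finset.sum_congr rfl fun m _ => ?_
  ring

/-! ### finiteness -/

lemma mu_fin (μ0 : Fin r →₀ ℕ) (B : Finset (Fin r →₀ ℕ)) :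
    ({c : Fin r → ℤ | (∀ j, c j ≤ μ0 j) ∧ mu μ0 c ∈ B} : Set _).Finite := by
  refine ((B.finite_toSet).image (fun μ : Fin r →₀ ℕ => fun j => (μ0 j : ℤ) - μ j)).subset ?_
  rintro c ⟨h1, h2⟩
  refine ⟨mu μ0 c, h2, ?_⟩
  funext j
  have := h1 j
  simp only [mu, Finsupp.equivFunOnFinite_symm_apply_apply]
  omega

lemma al_fin (v : Fin r → Fin N → ℕ) (A : MvPolynomial (Fin N) (MvPolynomial (Fin r) ℚ))
    (μ0 : Fin r →₀ ℕ) : ({c : Fin r → ℤ | al v A μ0 c ≠ 0} : Set _).Finite := by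
  classical
  refine (mu_fin μ0 (A.support.biUnion fun g => (coeff g A).support)).subset ?_
  intro c hc
  simp only [Set.mem_setOf_eq, al] at hc
  split_ifs at hc with h0
  · refine ⟨h0.2, ?_⟩
    rw [Finset.mem_biUnion]
    refine ⟨gam v c, mem_support_iff.2 fun h => hc (by rw [h, coeff_zero]), mem_support_iff.2 hc⟩
  · exact absurd rfl hc

lemma Gc_fin (v : Fin r → Fin N → ℕ) (D : Finset (Fin N → ℤ)) (T : Finset ℕ)
    (Q : ℕ → (Fin N → ℤ) → MvPolynomial (Fin N) (MvPolynomial (Fin r) ℚ)) (μ0 : Fin r →₀ ℕ) :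
    ({c : Fin r → ℤ | ∃ m ∈ T, Gc v D Q μ0 m c ≠ 0} : Set _).Finite := by
  classical
  refine (mu_fin μ0 (T.biUnion fun m => D.biUnion fun δ => (Q m δ).support.biUnion fun g =>
    (coeff g (Q m δ)).support)).subset ?_
  rintro c ⟨m, hm, hc⟩
  simp only [Gc] at hc
  split_ifs at hc with h0
  · refine ⟨h0.2, ?_⟩
    have h1 : ∃ g ∈ (Q m (Sh v c)).support, coeff (mu μ0 c) (coeff g (Q m (Sh v c))) ≠ 0 := by
      by_contra hcon
      push Not at hcon
      apply hc
      unfold Qy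
      refine Finset.sum_eq_zero fun g hg => ?_
      rw [hcon g hg, monomial_zero]
    obtain ⟨g, hg, hg2⟩ := h1
    simp only [Finset.mem_biUnion]
    exact ⟨m, hm, Sh v c, h0.1, g, hg, mem_support_iff.2 hg2⟩
  · exact absurd rfl hc

end Pool.Agent.W462.SG
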